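import Pool.Agent.W729.SJ.FinOp

set_option autoImplicit false

namespace Pool.Agent.Results.MP_238286_an.FiniteRComponents

open Pool.Agent.W729.SJ

/-- Let `M` be a monoid such that for every finite set `K`, with generated submonoid `N`, and every
`m` only finitely many elements `m'` of `m N` satisfy `m ∈ m' N` (for instance a monoid whose
Green R-classes are all finite).  Then the opposite monoid of `M` is surjunctive. -/
theorem result (M : Type) [Monoid M]
    (h : ∀ (K : Finset M) (m : M),
      {m' : M | (∃ t ∈ Submonoid.closure (K : Set M), m' = m * t) ∧
        ∃ t ∈ Submonoid.closure (K : Set M), m = m' * t}.Finite) :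
    Surjunctive Mᵐᵒᵖ :=
  surj_op_of_finite h

end Pool.Agent.Results.MP_238286_an.FiniteRComponents
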