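import Pool.Agent.W729.SJ.Defs

set_option autoImplicit false

namespace Pool.Agent.Results.MP_238286_an.IdempotentFreeExample

open Pool.Agent.W729.SJ Function

/-- normal forms: a word in the letters `c, d` followed by a word in the letters `a, b`;
`false` stands for `c` and for `a`, `true` stands for `d` and for `b` -/
abbrev X : Type := List Bool × List Bool

/-- left multiplication of a normal form by `c` or `d` -/
def lt (g : Bool) : Function.End X := fun p => (g :: p.1, p.2)

/-- left multiplication by `a` or `b`: `a c = a`, `b c = b`, `a d = c`, `b d = d` -/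
def ls (g : Bool) : Function.End X := fun p => go g p.1 p.2
where
  /-- recursion on the first word -/
  go (g : Bool) : List Bool → List Bool → X
    | [], u => ([], g :: u)
    | false :: v, u => go g v u
    | true :: v, u => (g :: v, u)

theorem ls_c (g : Bool) : ls g * lt false = ls g := by
  funext p
  rfl

theorem ls_d (g : Bool) : ls g * lt true = lt g := by
  funext p
  rfl

/-- product of the letters of a word in `c, d` -/
def LT (v : List Bool) : Function.End X := (v.map lt).prod

/-- product of the letters of a word in `a, b` -/
def LS (u : List Bool) : Function.End X := (u.map ls).prod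

theorem LT_apply (v : List Bool) (p : X) : LT v p = (v ++ p.1, p.2) := by
  induction v with
  | nil => rfl
  | cons g v ih =>
    have h : LT (g :: v) p = lt g (LT v p) := rfl
    rw [h, ih]
    rfl

theorem LS_nil (u : List Bool) : LS u ([], []) = ([], u) := by
  induction u with
  | nil => rfl
  | cons g u ih =>
    have h : LS (g :: u) ([], []) = ls g (LS u ([], [])) := rfl
    rw [h, ih]
    rfl

/-- the generators -/
def gens : Set (Function.End X) := {f | ∃ g, f = ls g ∨ f = lt g}

/-- the submonoid generated by the four letters -/
def N : Submonoid (Function.End X) := Submonoid.closure gens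

theorem ls_mul (g : Bool) (v u : List Bool) :
    ∃ v' u' : List Bool, ls g * (LT v * LS u) = LT v' * LS u' := by
  induction v with
  | nil => exact ⟨[], g :: u, rfl⟩
  | cons h v ih =>
    cases h with
    | false =>
      obtain ⟨v', u', h'⟩ := ih
      refine ⟨v', u', ?_⟩
      rw [← h']
      have e : LT (false :: v) = lt false * LT v := rfl
      rw [e, mul_assoc, ← mul_assoc (ls g), ls_c]
    | true =>
      refine ⟨g :: v, u, ?_⟩
      have e : LT (true :: v) = lt true * LT v := rfl
      have e' : LT (g :: v) = lt g * LT v := rfl
      rw [e, e', mul_assoc, ← mul_assoc (ls g), ls_d, mul_assoc]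

theorem form (m : Function.End X) (hm : m ∈ N) : ∃ v u : List Bool, m = LT v * LS u := by
  induction hm using Submonoid.closure_induction_left with
  | one => exact ⟨[], [], rfl⟩
  | mul_left x hx y _ ih =>
    obtain ⟨g, hg⟩ := hx
    obtain ⟨v, u, rfl⟩ := ih
    rcases hg with rfl | rfl
    · exact ls_mul g v u
    · exact ⟨g :: v, u, rfl⟩

theorem go_prop (g : Bool) (v u : List Bool) :
    u.length ≤ (ls.go g v u).2.length ∧
      ((ls.go g v u).1 ≠ [] ∨ u.length < (ls.go g v u).2.length) := by
  induction v with
  | nil => simp [ls.go]
  | cons h v ih =>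
    cases h with
    | false => exact ih
    | true => simp [ls.go]

theorem LS_length (w : List Bool) (p : X) : p.2.length ≤ (LS w p).2.length := by
  induction w with
  | nil => exact le_refl _
  | cons g w ih =>
    have h : LS (g :: w) p = ls.go g (LS w p).1 (LS w p).2 := rfl
    rw [h]
    exact le_trans ih (go_prop g _ _).1

theorem LS_strict (g : Bool) (w : List Bool) (p : X) :
    (LS (g :: w) p).1 ≠ [] ∨ p.2.length < (LS (g :: w) p).2.length := by
  have h : LS (g :: w) p = ls.go g (LS w p).1 (LS w p).2 := rfl
  rw [h]
  rcases (go_prop g (LS w p).1 (LS w p).2).2 with h1 | h1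
  · exact Or.inl h1
  · exact Or.inr (lt_of_le_of_lt (LS_length w p) h1)

theorem idem (m : Function.End X) (hm : m ∈ N) (h : m * m = m) : m = 1 := by
  obtain ⟨v, u, rfl⟩ := form m hm
  have h1 := congrFun h ([], [])
  have h2 : (LT v * LS u) ([], []) = (v, u) := by
    change LT v (LS u ([], [])) = (v, u)
    rw [LS_nil, LT_apply]
    simp
  have h3 : ((LT v * LS u) * (LT v * LS u)) ([], []) = LT v (LS u (v, u)) := by
    change LT v (LS u ((LT v * LS u) ([], []))) = _
    rw [h2]
  rw [h3, h2, LT_apply] at h1
  have h4 : (LS u (v, u)).1 = [] := by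
    have := congrArg Prod.fst h1
    simpa using this
  have h5 : (LS u (v, u)).2 = u := congrArg Prod.snd h1
  cases u with
  | nil =>
    have h6 : v = [] := h4
    rw [h6]
    rfl
  | cons g w =>
    rcases LS_strict g w (v, g :: w) with h6 | h6
    · exact absurd h4 h6
    · rw [h5] at h6
      exact absurd h6 (lt_irrefl _)

/-- There is a monoid that is not surjunctive although its only idempotent is the identity; in
particular no subsemigroup of it is isomorphic to the bicyclic monoid. -/
theorem result : ∃ (M : Type) (_ : Monoid M),
    ¬ Surjunctive M ∧ ∀ e : M, e * e = e → e = 1 := by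
  refine ⟨N, inferInstance, ?_, ?_⟩
  · intro hS
    have hmem : ∀ g, ls g ∈ N ∧ lt g ∈ N := fun g =>
      ⟨Submonoid.subset_closure ⟨g, Or.inl rfl⟩, Submonoid.subset_closure ⟨g, Or.inr rfl⟩⟩
    let s : Bool → N := fun g => ⟨ls g, (hmem g).1⟩
    let t : Bool → N := fun g => ⟨lt g, (hmem g).2⟩
    have hc : ∀ g, s g * t false = s g := fun g => Subtype.ext (ls_c g)
    have hd : ∀ g, s g * t true = t g := fun g => Subtype.ext (ls_d g)
    let τ : (N → ZMod 2) → (N → ZMod 2) := fun x m => x m + x (s false * m) + x (s true * m)
    let σ : (N → ZMod 2) → (N → ZMod 2) := fun x m => x m + x (t false * m) + x (t true * m)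
    have hτ : IsCA N τ := by
      classical
      let S : Finset N := {1, s false, s true}
      have h1 : (1 : N) ∈ S := by simp [S]
      have h2 : s false ∈ S := by simp [S]
      have h3 : s true ∈ S := by simp [S]
      refine ⟨S, fun g => g ⟨_, h1⟩ + g ⟨_, h2⟩ + g ⟨_, h3⟩, ?_⟩
      intro x m
      simp only [τ, one_mul]
    have hl : LeftInverse σ τ := by
      intro x
      funext m
      simp only [σ, τ, ← mul_assoc, hc, hd]
      have h2 : ∀ z : ZMod 2, z + z = 0 := by decide
      generalize x m = p
      generalize x (s false * m) = q
      generalize x (s true * m) = r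
      generalize x (t false * m) = k
      generalize x (t true * m) = l
      revert p q r k l
      decide
    have hsurj := hS (ZMod 2) τ hτ hl.injective
    have hr : ∀ x, τ (σ x) = x := by
      intro x
      obtain ⟨y, rfl⟩ := hsurj x
      rw [hl y]
    classical
    let ev : N → X := fun m => m.1 ([], [])
    let x : N → ZMod 2 := fun m => if ev m = ([false], [false]) then 1 else 0
    have h := congrFun (hr x) 1
    have v1 : ev 1 = ([], []) := rfl
    have v2 : ∀ g, ev (s g) = ([], [g]) := fun g => rfl
    have v3 : ∀ g, ev (t g) = ([g], []) := fun g => rfl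
    have v4 : ∀ g g', ev (t g * s g') = ([g], [g']) := fun g g' => rfl
    simp only [σ, τ, mul_one, x, v1, v2, v3, v4] at h
    simp at h
  · intro e he
    have h1 := idem e.1 e.2 (congrArg Subtype.val he)
    exact Subtype.ext h1

end Pool.Agent.Results.MP_238286_an.IdempotentFreeExample
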