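import Pool.Agent.W729.SJ.Block

set_option autoImplicit false

namespace Pool.Agent.Results.MP_238286_an.OneSidedStabilisers

open Pool.Agent.W729.SJ

/-- Let `M` be a monoid in which either all right stabilisers or all left stabilisers of elements
consist of units, and in which either no unit other than `1` fixes an element by left
multiplication or there are only finitely many units.  Then the opposite monoid of `M` is
surjunctive if and only if the group of units of `M` is surjunctive; in particular it is
surjunctive whenever `M` is. -/
theorem result (M : Type) [Monoid M]
    (hst : (∀ m s : M, m * s = m → IsUnit s) ∨ (∀ m s : M, s * m = m → IsUnit s))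
    (hU : (∀ (u : Mˣ) (m : M), (u : M) * m = m → u = 1) ∨ Finite Mˣ) :
    (Surjunctive Mᵐᵒᵖ ↔ Surjunctive Mˣ) ∧ (Surjunctive M → Surjunctive Mᵐᵒᵖ) := by
  have h := surj_op_of_stab hst hU
  exact ⟨h, fun hM => h.2 (surj_of_hom (Units.coeHom M) Units.val_injective hM)⟩

end Pool.Agent.Results.MP_238286_an.OneSidedStabilisers
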